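import Pool.Agent.W117.GS.Stm

/-!
# The coefficients have bounded derivatives (task GS-CX, helper193)
-/

set_option autoImplicit false

open scoped ContDiff
open Finset

namespace Pool.Agent.W193.GS.CX

open Pool.Agent.W117.GS

theorem cb_mul (hCO : PropCO) (hPA : PropPA) {k : ℕ} {f g : ℝ × ℝ → ℝ} (hf : CB k f) (hg : CB k g) :
    CB k (fun x => f x * g x) :=
  hCO (ℝ × ℝ) ℝ k (fun p => p.1 * p.2) (fun x => (f x, g x)) (contDiff_fst.mul contDiff_snd)
    (hPA ℝ ℝ k f g hf hg)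

theorem cb_add (hCO : PropCO) (hPA : PropPA) {k : ℕ} {f g : ℝ × ℝ → ℝ} (hf : CB k f) (hg : CB k g) :
    CB k (fun x => f x + g x) :=
  hCO (ℝ × ℝ) ℝ k (fun p => p.1 + p.2) (fun x => (f x, g x)) (contDiff_fst.add contDiff_snd)
    (hPA ℝ ℝ k f g hf hg)

theorem cb_one (hCL : PropCL) (k : ℕ) : CB k (fun _ : ℝ × ℝ => (1 : ℝ)) := by
  have h := hCL 1 0 0 0 (0, 0) le_rfl (by norm_num) k
  have e : (fun z : ℝ × ℝ => (z.1 - (0, 0).1) ^ 0 * (z.2 - (0, 0).2) ^ 0 *
      (1 + sp (0, 0) z ^ 1) ^ (-(0 : ℝ))) = fun _ => (1 : ℝ) := by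
    funext z
    simp
  rwa [e] at h

theorem cb_const (hCL : PropCL) (hCO : PropCO) (k : ℕ) (c : ℝ) : CB k (fun _ : ℝ × ℝ => c) :=
  hCO ℝ ℝ k (fun _ => c) (fun _ => (1 : ℝ)) contDiff_const (cb_one hCL k)

theorem cb_prod (hCL : PropCL) (hCO : PropCO) (hPA : PropPA) {k : ℕ} {ι : Type} (S : Finset ι)
    (f : ι → ℝ × ℝ → ℝ) (h : ∀ p ∈ S, CB k (f p)) : CB k (fun x => ∏ p ∈ S, f p x) := by
  classical
  induction S using Finset.induction_on with
  | empty =>
    simp only [Finset.prod_empty]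
    exact cb_one hCL k
  | insert a S ha ih =>
    simp only [Finset.prod_insert ha]
    exact cb_mul hCO hPA (h a (mem_insert_self _ _)) (ih fun p hp => h p (mem_insert_of_mem hp))

theorem cb_sum (hCL : PropCL) (hCO : PropCO) (hPA : PropPA) {k : ℕ} {ι : Type} (S : Finset ι)
    (f : ι → ℝ × ℝ → ℝ) (h : ∀ p ∈ S, CB k (f p)) : CB k (fun x => ∑ p ∈ S, f p x) := by
  classical
  induction S using Finset.induction_on with
  | empty =>
    simp only [Finset.sum_empty]
    exact cb_const hCL hCO k 0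
  | insert a S ha ih =>
    simp only [Finset.sum_insert ha]
    exact cb_add hCO hPA (h a (mem_insert_self _ _)) (ih fun p hp => h p (mem_insert_of_mem hp))

theorem cb_pow (hCO : PropCO) {k : ℕ} {f : ℝ × ℝ → ℝ} (hf : CB k f) (m : ℕ) :
    CB k (fun x => f x ^ m) :=
  hCO ℝ ℝ k (fun t => t ^ m) f (contDiff_id.pow m) hf

theorem sp_nonneg (p z : ℝ × ℝ) : 0 ≤ sp p z := by
  unfold sp
  positivity

theorem pos1 (p z : ℝ × ℝ) (M : ℕ) : 0 < 1 + sp p z ^ M := by
  have := pow_nonneg (sp_nonneg p z) M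
  linarith

theorem main (hCL : PropCL) (hCO : PropCO) (hPA : PropPA) : PropCX := by
  intro a S n M ha hM k
  have hM0 : (0 : ℝ) < M := by exact_mod_cast hM
  refine ⟨?_, ?_, ?_⟩
  · have e : EE a S n M = fun z => ∏ p ∈ S,
        ((z.1 - p.1) ^ 0 * (z.2 - p.2) ^ 0 * (1 + sp p z ^ M) ^ (-(a * n p / M))) := by
      funext z
      unfold EE v0
      rw [mul_neg, ← neg_mul, mul_sum, Real.exp_sum]
      refine prod_congr rfl fun p _ => ?_
      rw [Real.rpow_def_of_pos (pos1 p z M), pow_zero, pow_zero, one_mul, one_mul]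
      congr 1
      field_simp
    rw [e]
    refine cb_prod hCL hCO hPA S _ fun p _ => hCL M 0 0 _ p hM ?_ k
    have : 0 ≤ 2 * (M : ℝ) * (a * n p / M) := by positivity
    simpa using this
  · have e : BB S n M = fun z => ∏ p ∈ S,
        ((z.1 - p.1) ^ 2 * (z.2 - p.2) ^ 0 * (1 + sp p z ^ M) ^ (-(1 / M : ℝ)) +
          (z.1 - p.1) ^ 0 * (z.2 - p.2) ^ 2 * (1 + sp p z ^ M) ^ (-(1 / M : ℝ))) ^ n p := by
      funext z
      unfold BB v0 gg
      rw [← sum_neg_distrib, Real.exp_sum, ← prod_mul_distrib]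
      refine prod_congr rfl fun p _ => ?_
      have e1 : Real.exp (-((n p : ℝ) * (1 / M * Real.log (1 + sp p z ^ M)))) =
          ((1 + sp p z ^ M) ^ (-(1 / M : ℝ))) ^ n p := by
        rw [Real.rpow_def_of_pos (pos1 p z M), ← Real.exp_nat_mul]
        congr 1
        ring
      rw [e1, ← mul_pow]
      congr 1
      rw [pow_zero, pow_zero, mul_one, one_mul, ← add_mul]
      rfl
    rw [e]
    have h2 : (2 : ℝ) ≤ 2 * M * (1 / M) := by
      rw [mul_assoc, mul_one_div_cancel hM0.ne', mul_one]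
    refine cb_prod hCL hCO hPA S _ fun p _ => cb_pow hCO (cb_add hCO hPA
      (hCL M 2 0 _ p hM ?_ k) (hCL M 0 2 _ p hM ?_ k)) _
    · simpa using h2
    · simpa using h2
  · have e : kk S n M = fun z => ∑ p ∈ S, ∑ l ∈ range (M - 1 + 1),
        ((n p : ℝ) * (4 * M) * ((M - 1).choose l : ℝ)) *
          ((z.1 - p.1) ^ (2 * l) * (z.2 - p.2) ^ (2 * (M - 1 - l)) *
            (1 + sp p z ^ M) ^ (-(2 : ℝ))) := by
      funext z
      unfold kk
      refine sum_congr rfl fun p _ => ?_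
      have h1 : (1 + sp p z ^ M) ^ (-(2 : ℝ)) = ((1 + sp p z ^ M) ^ 2)⁻¹ := by
        rw [Real.rpow_neg (pos1 p z M).le]
        congr 1
        exact_mod_cast Real.rpow_natCast (1 + sp p z ^ M) 2
      rw [h1]
      have h2 : sp p z ^ (M - 1) = ∑ l ∈ range (M - 1 + 1),
          (z.1 - p.1) ^ (2 * l) * (z.2 - p.2) ^ (2 * (M - 1 - l)) * ((M - 1).choose l : ℝ) := by
        unfold sp
        rw [add_pow]
        refine sum_congr rfl fun l _ => ?_
        rw [← pow_mul, ← pow_mul]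
      rw [h2, mul_sum, sum_div, mul_sum]
      refine sum_congr rfl fun l _ => ?_
      rw [div_eq_mul_inv]
      ring
    rw [e]
    refine cb_sum hCL hCO hPA S _ fun p _ => cb_sum hCL hCO hPA _ _ fun l hl =>
      cb_mul hCO hPA (cb_const hCL hCO k _) (hCL M _ _ _ p hM ?_ k)
    have hl' : l ≤ M - 1 := by
      have := mem_range.1 hl
      omega
    have h3 : 2 * l + 2 * (M - 1 - l) ≤ 2 * M := by omega
    have h4 : ((2 * l : ℕ) : ℝ) + ((2 * (M - 1 - l) : ℕ) : ℝ) ≤ 2 * M := by exact_mod_cast h3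
    linarith

end Pool.Agent.W193.GS.CX
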